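import Pool.Agent.Q40.OD.Stm1

/-! Project OD (helper40), lemma job OD-7. -/

set_option autoImplicit false
set_option linter.unusedSectionVars false
set_option linter.unusedVariables false

open scoped Pointwise

namespace Pool.Agent.Q229.OD.S7

open Pool.Agent.Q40.OD Pool.Agent.H918R2.Quad Pool.Agent.TH214.RM MvPolynomial

variable {F : Type} [Field F] {𝒪 : Subring F}

theorem mkU {a b : F} (ha : a ≠ 0) (hb : b ≠ 0) (h1 : a / b ∈ 𝒪) (h2 : b / a ∈ 𝒪) :
    U 𝒪 (a / b) :=
  ⟨div_ne_zero ha hb, h1, by rw [inv_div]; exact h2⟩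

theorem prodU {κ : Type} (S : Finset κ) (z : κ → F) (h : ∀ k ∈ S, U 𝒪 (z k)) :
    U 𝒪 (∏ k ∈ S, z k) := by
  classical
  induction S using Finset.induction_on with
  | empty => simpa using U_one
  | insert a s ha ih =>
    rw [Finset.prod_insert ha]
    exact (h a (Finset.mem_insert_self _ _)).mul
      (ih fun k hk => h k (Finset.mem_insert_of_mem hk))

theorem sumU (h : IsLoc 𝒪) {κ : Type} (S : Finset κ) (z : κ → F) (hz : ∀ k ∈ S, z k ∈ 𝒪)
    (hU : U 𝒪 (∑ k ∈ S, z k)) : ∃ k ∈ S, U 𝒪 (z k) := by
  classical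
  induction S using Finset.induction_on with
  | empty =>
    rw [Finset.sum_empty] at hU
    exact absurd hU not_U_zero
  | insert a s ha ih =>
    rw [Finset.sum_insert ha] at hU
    rcases h _ _ (hz a (Finset.mem_insert_self _ _))
      (𝒪.sum_mem fun k hk => hz k (Finset.mem_insert_of_mem hk)) hU with h1 | h1
    · exact ⟨a, Finset.mem_insert_self _ _, h1⟩
    · obtain ⟨k, hk, h2⟩ := ih (fun k hk => hz k (Finset.mem_insert_of_mem hk)) h1
      exact ⟨k, Finset.mem_insert_of_mem hk, h2⟩

variable {R ι : Type} [CommRing R] [Algebra R F]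

theorem aeval_mem (hR : ∀ r : R, algebraMap R F r ∈ 𝒪) (t : ι → F) (ht : ∀ j, t j ∈ 𝒪)
    (P : MvPolynomial ι R) : aeval t P ∈ 𝒪 := by
  induction P using MvPolynomial.induction_on with
  | C r => rw [aeval_C]; exact hR r
  | add p q hp hq => rw [map_add]; exact 𝒪.add_mem hp hq
  | mul_X p j hp => rw [map_mul, aeval_X]; exact 𝒪.mul_mem hp (ht _)

/-- monomials divided by powers of `x s` -/
theorem mono_mem (x : ι → F) (s : ι) (hs : x s ≠ 0) (ht : ∀ j, x j / x s ∈ 𝒪) (e : ℕ) (m : F)
    (hm : m ∈ Set.range x ^ e) : m / x s ^ e ∈ 𝒪 := by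
  obtain ⟨φ, rfl⟩ := (Pool.Agent.H945R2.D.GD1aux.mem_range_pow x e m).1 hm
  have h1 : (∏ i, x (φ i)) / x s ^ e = ∏ i, (x (φ i) / x s) := by
    rw [Finset.prod_div_distrib, Finset.prod_const, Finset.card_univ, Fintype.card_fin]
  rw [h1]
  exact 𝒪.prod_mem fun i _ => ht _

/-- the final product formula -/
theorem fin_prod {r : ℕ} (f p xD : F) (g h : Fin r → F) (hp : p = ∏ j, g j)
    (hg : ∀ j, g j ≠ 0) (hh : ∀ j, h j ≠ 0) (hxD : xD ≠ 0)
    (hU : U 𝒪 (f / p / xD)) (hj : ∀ j, U 𝒪 (g j / h j)) : U 𝒪 (f / (xD * ∏ j, h j)) := by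
  have h1 : f / (xD * ∏ j, h j) = (f / p / xD) * ∏ j, (g j / h j) := by
    rw [Finset.prod_div_distrib, hp]
    have a1 : ∏ j, g j ≠ 0 := Finset.prod_ne_zero_iff.2 fun j _ => hg j
    have a2 : ∏ j, h j ≠ 0 := Finset.prod_ne_zero_iff.2 fun j _ => hh j
    field_simp
  rw [h1]
  exact hU.mul (prodU _ _ fun j _ => hj j)

theorem od7 : S_OD7 := by
  intro R F _ _ _ _ _ 𝒪 hloc hR hRF π hπ ι _ _ G d hd hGd x hrel r D hD f hf hfG hG
  classical
  obtain ⟨g₀, hg₀, hU₀⟩ := exists_U_gen hloc hR _ f hf hG hfG
  obtain ⟨m, hm, g, hg, rfl⟩ := hg₀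
  have hg0 : m * ∏ j, g j ≠ 0 := by
    intro h0
    rw [h0, zero_div] at hU₀
    exact not_U_zero hU₀
  have hm0 : m ≠ 0 := left_ne_zero_of_mul hg0
  have hp0 : ∏ j, g j ≠ 0 := right_ne_zero_of_mul hg0
  have hgj : ∀ j, g j ≠ 0 := fun j => Finset.prod_ne_zero_iff.1 hp0 j (Finset.mem_univ j)
  have hπF : algebraMap R F π ≠ 0 := by
    rw [Ne, map_eq_zero_iff _ hRF]
    exact hπ.ne_zero
  have hπO : algebraMap R F π ∈ 𝒪 := hR π
  obtain ⟨s, hs, ht, hUs⟩ := Pool.Agent.H945R2.D.GD1aux.exists_coord 𝒪 x D hD (f / ∏ j, g j)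
    (fun h hh => by
      have h1 := hG (h * ∏ j, g j) ⟨h, hh, g, hg, rfl⟩
      have h2 : h / (f / ∏ j, g j) = h * (∏ j, g j) / f := by field_simp
      rw [h2]
      exact h1) m hm (by
      have h2 : m / (f / ∏ j, g j) = m * (∏ j, g j) / f := by field_simp
      rw [h2]
      exact hU₀)
  -- replacement of one factor
  have rep : ∀ (j : Fin r) (g' : F), g' ∈ Jset π G d x ((j : ℕ) + 1) → g' / g j ∈ 𝒪 := by
    intro j g' hg'
    have h1 := hG (m * ∏ i, Function.update g j g' i) ⟨m, hm, Function.update g j g', by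
      intro i
      by_cases hi : i = j
      · subst hi
        rw [Function.update_self]
        exact hg'
      · rw [Function.update_of_ne hi]
        exact hg i, rfl⟩
    have h2 : ∏ i, Function.update g j g' i = (∏ i, g i) * (g' / g j) := by
      rw [Finset.prod_update_of_mem (Finset.mem_univ j), ← Finset.mul_prod_erase Finset.univ g
        (Finset.mem_univ j), Finset.sdiff_singleton_eq_erase]
      have := hgj j
      field_simp
    rw [h2] at h1
    have h3 : g' / g j = (m * ((∏ i, g i) * (g' / g j)) / f) * (m * (∏ i, g i) / f)⁻¹ := by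
      rw [inv_div]
      have := hgj j
      field_simp
    rw [h3]
    exact 𝒪.mul_mem h1 hU₀.2.2
  set xs := x s with hxs
  set dF : ι → F := fun a => aeval x (pderiv a G) with hdF
  have hxd : xs ^ (d - 1) ≠ 0 := pow_ne_zero _ hs
  -- the y are in 𝒪
  have hy : ∀ a, dF a / xs ^ (d - 1) ∈ 𝒪 := by
    intro a
    have h1 := aeval_scale x xs⁻¹ (d - 1) (pderiv a G) hGd.pderiv
    have h2 : dF a / xs ^ (d - 1) = aeval (fun j => x j * xs⁻¹) (pderiv a G) := by
      rw [h1, inv_pow, div_eq_mul_inv]
    rw [h2]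
    exact aeval_mem hR _ (fun j => by rw [← div_eq_mul_inv]; exact ht j) _
  have hmono : ∀ m' ∈ Set.range x ^ (d - 1), m' / xs ^ (d - 1) ∈ 𝒪 :=
    fun m' hm' => mono_mem x s hs ht (d - 1) m' hm'
  have hxsmem : xs ^ (d - 1) ∈ Set.range x ^ (d - 1) := Set.pow_mem_pow ⟨s, rfl⟩
  -- Euler
  have euler : ∑ a, (x a / xs) * (dF a / xs ^ (d - 1)) = 0 := by
    have h1 := congrArg (aeval x) hGd.sum_X_mul_pderiv
    rw [map_sum, map_nsmul, hrel, smul_zero] at h1
    have h2 : ∑ a, (x a / xs) * (dF a / xs ^ (d - 1)) =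
        (∑ a, aeval x (X a * pderiv a G)) / (xs * xs ^ (d - 1)) := by
      rw [Finset.sum_div]
      refine Finset.sum_congr rfl fun a _ => ?_
      rw [map_mul, aeval_X, div_mul_div_comm]
    rw [h2, h1, zero_div]
  refine ⟨s, hs, ht, ?_⟩
  by_cases hA : ∃ a : {a : ι // a ≠ s}, U 𝒪 (dF a / xs ^ (d - 1))
  · refine Or.inl ⟨hA, ?_⟩
    obtain ⟨a, ha⟩ := hA
    have h1 := fin_prod f (∏ j, g j) (xs ^ D) g (fun _ => xs ^ (d - 1)) rfl hgj
      (fun _ => hxd) (pow_ne_zero _ hs) hUs (fun j => by
        refine mkU (hgj j) hxd ?_ ?_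
        · rcases hg j with ⟨b, hb⟩ | ⟨m', hm', hb⟩
          · rw [← hb]
            exact hy b
          · rw [← hb]
            change algebraMap R F π ^ ((j : ℕ) + 1) * m' / xs ^ (d - 1) ∈ 𝒪
            rw [mul_div_assoc]
            exact 𝒪.mul_mem (𝒪.pow_mem hπO _) (hmono m' hm')
        · have h2 := rep j (dF a) (Or.inl ⟨a, rfl⟩)
          have h3 : xs ^ (d - 1) / g j = (dF a / g j) * (dF a / xs ^ (d - 1))⁻¹ := by
            have h4 : dF a ≠ 0 := by
              intro h0
              rw [h0, zero_div] at ha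
              exact not_U_zero ha
            have := hgj j
            rw [inv_div]
            field_simp
          rw [h3]
          exact 𝒪.mul_mem h2 ha.2.2)
    have h2 : xs ^ (D + r * (d - 1)) = xs ^ D * ∏ _j : Fin r, xs ^ (d - 1) := by
      rw [Finset.prod_const, Finset.card_univ, Fintype.card_fin, ← pow_mul, ← pow_add,
        mul_comm (d - 1)]
    rw [h2]
    exact h1
  · refine Or.inr ⟨fun a ha => hA ⟨a, ha⟩, ?_⟩
    have hP0 : ∀ a, dF a / xs ^ (d - 1) / algebraMap R F π ^ 0 ∈ 𝒪 := by
      intro a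
      rw [pow_zero, div_one]
      exact hy a
    by_cases hPr : ∀ a, dF a / xs ^ (d - 1) / algebraMap R F π ^ r ∈ 𝒪
    · exact Or.inl fun a => hPr a
    · right
      obtain ⟨k, hkr, hPk, hPk1⟩ : ∃ k, k < r ∧
          (∀ a, dF a / xs ^ (d - 1) / algebraMap R F π ^ k ∈ 𝒪) ∧
          ¬ ∀ a, dF a / xs ^ (d - 1) / algebraMap R F π ^ (k + 1) ∈ 𝒪 := by
        by_contra hcon
        push Not at hcon
        have : ∀ k ≤ r, ∀ a, dF a / xs ^ (d - 1) / algebraMap R F π ^ k ∈ 𝒪 := by
          intro k
          induction k with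
          | zero => exact fun _ => hP0
          | succ k ih => exact fun hk => hcon k (by omega) (ih (by omega))
        exact hPr (this r le_rfl)
      let jk : Fin r := ⟨k, hkr⟩
      have hgk : ∃ a₀, dF a₀ = g jk := by
        rcases hg jk with ⟨b, hb⟩ | ⟨m', hm', hb⟩
        · exact ⟨b, hb⟩
        · exfalso
          apply hPk1
          intro a
          change algebraMap R F π ^ (k + 1) * m' = g jk at hb
          have h2 := rep jk (dF a) (Or.inl ⟨a, rfl⟩)
          have h3 : m' ≠ 0 := by
            rintro rfl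
            rw [mul_zero] at hb
            exact hgj jk hb.symm
          have h4 : dF a / xs ^ (d - 1) / algebraMap R F π ^ (k + 1) =
              (dF a / g jk) * (m' / xs ^ (d - 1)) := by
            rw [← hb]
            field_simp
          rw [h4]
          exact 𝒪.mul_mem h2 (hmono m' hm')
      obtain ⟨a₀, ha₀⟩ := hgk
      obtain ⟨i, hi, hUi⟩ : ∃ i, i ≠ s ∧ U 𝒪 (dF i / g jk) := by
        by_cases h0 : a₀ = s
        · subst h0
          have e1 : ∑ a, (x a / xs) * (dF a / g jk) = 0 := by
            have e2 : ∑ a, (x a / xs) * (dF a / g jk) =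
                (∑ a, (x a / xs) * (dF a / xs ^ (d - 1))) * (xs ^ (d - 1) / g jk) := by
              rw [Finset.sum_mul]
              refine Finset.sum_congr rfl fun a _ => ?_
              have := hgj jk
              field_simp
            rw [e2, euler, zero_mul]
          rw [← Finset.add_sum_erase Finset.univ _ (Finset.mem_univ a₀)] at e1
          have e3 : (x a₀ / xs) * (dF a₀ / g jk) = 1 := by
            rw [ha₀, div_self hs, div_self (hgj jk), one_mul]
          rw [e3] at e1
          have e4 : U 𝒪 (∑ a ∈ Finset.univ.erase a₀, (x a / xs) * (dF a / g jk)) := by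
            have e5 : ∑ a ∈ Finset.univ.erase a₀, (x a / xs) * (dF a / g jk) = -1 := by
              linear_combination e1
            rw [e5]
            exact ⟨by simp, 𝒪.neg_mem 𝒪.one_mem, by
              rw [inv_neg, inv_one]; exact 𝒪.neg_mem 𝒪.one_mem⟩
          obtain ⟨b, hb, hUb⟩ := sumU hloc _ _ (fun a _ => 𝒪.mul_mem (ht a)
            (rep jk (dF a) (Or.inl ⟨a, rfl⟩))) e4
          exact ⟨b, Finset.ne_of_mem_erase hb,
            hUb.of_mul_right (ht b) (rep jk (dF b) (Or.inl ⟨b, rfl⟩))⟩
        · exact ⟨a₀, h0, by rw [ha₀, div_self (hgj jk)]; exact U_one⟩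
      have hdi : dF i ≠ 0 := by
        intro h0
        rw [h0, zero_div] at hUi
        exact not_U_zero hUi
      have rep2 : ∀ g' ∈ Jset π G d x (k + 1), g' / dF i ∈ 𝒪 := by
        intro g' hg'
        have h2 : g' / dF i = (g' / g jk) * (dF i / g jk)⁻¹ := by
          have := hgj jk
          rw [inv_div]
          field_simp
        rw [h2]
        exact 𝒪.mul_mem (rep jk g' hg') hUi.2.2
      have hw : algebraMap R F π ^ (k + 1) / (dF i / xs ^ (d - 1)) ∈ 𝒪 := by
        have h2 := rep2 (algebraMap R F π ^ (k + 1) * xs ^ (d - 1)) (Or.inr ⟨_, hxsmem, rfl⟩)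
        have h3 : algebraMap R F π ^ (k + 1) / (dF i / xs ^ (d - 1)) =
            algebraMap R F π ^ (k + 1) * xs ^ (d - 1) / dF i := by
          field_simp
        rw [h3]
        exact h2
      refine ⟨k, ⟨i, hi⟩, hkr, hdi, fun a => rep2 (dF a) (Or.inl ⟨a, rfl⟩), hPk i, hw, ?_, ?_⟩
      · intro hUw
        apply hPk1
        intro b
        have h2 : dF b / xs ^ (d - 1) / algebraMap R F π ^ (k + 1) =
            (dF b / dF i) * (algebraMap R F π ^ (k + 1) / (dF i / xs ^ (d - 1)))⁻¹ := by
          rw [inv_div]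
          field_simp
        rw [h2]
        exact 𝒪.mul_mem (rep2 (dF b) (Or.inl ⟨b, rfl⟩)) hUw.2.2
      · let h : ℕ → F := fun j => if j < k then algebraMap R F π ^ (j + 1) * xs ^ (d - 1)
          else dF i
        have hh : ∀ j, h j ≠ 0 := by
          intro j
          simp only [h]
          split_ifs
          · exact mul_ne_zero (pow_ne_zero _ hπF) hxd
          · exact hdi
        have h1 := fin_prod f (∏ j, g j) (xs ^ D) g (fun j : Fin r => h j) rfl hgj
          (fun j => hh j) (pow_ne_zero _ hs) hUs (fun j => by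
            have hcl : ∀ g' ∈ Jset π G d x ((j : ℕ) + 1), g' / h j ∈ 𝒪 := by
              intro g' hg'
              simp only [h]
              split_ifs with hj
              · rcases hg' with ⟨b, rfl⟩ | ⟨m', hm', rfl⟩
                · have h2 : dF b / (algebraMap R F π ^ ((j : ℕ) + 1) * xs ^ (d - 1)) =
                      (dF b / xs ^ (d - 1) / algebraMap R F π ^ k) *
                        algebraMap R F π ^ (k - ((j : ℕ) + 1)) := by
                    have h3 : algebraMap R F π ^ k = algebraMap R F π ^ (k - ((j : ℕ) + 1)) *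
                        algebraMap R F π ^ ((j : ℕ) + 1) := by
                      rw [← pow_add]
                      congr 1
                      omega
                    rw [h3]
                    field_simp
                  change dF b / (algebraMap R F π ^ ((j : ℕ) + 1) * xs ^ (d - 1)) ∈ 𝒪
                  rw [h2]
                  exact 𝒪.mul_mem (hPk b) (𝒪.pow_mem hπO _)
                · change algebraMap R F π ^ ((j : ℕ) + 1) * m' /
                    (algebraMap R F π ^ ((j : ℕ) + 1) * xs ^ (d - 1)) ∈ 𝒪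
                  rw [mul_div_mul_left _ _ (pow_ne_zero _ hπF)]
                  exact hmono m' hm'
              · rcases hg' with ⟨b, rfl⟩ | ⟨m', hm', rfl⟩
                · exact rep2 (dF b) (Or.inl ⟨b, rfl⟩)
                · change algebraMap R F π ^ ((j : ℕ) + 1) * m' / dF i ∈ 𝒪
                  have h2 : algebraMap R F π ^ ((j : ℕ) + 1) * m' / dF i =
                      algebraMap R F π ^ ((j : ℕ) - k) *
                        (algebraMap R F π ^ (k + 1) * m' / dF i) := by
                    have h3 : algebraMap R F π ^ ((j : ℕ) + 1) =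
                        algebraMap R F π ^ ((j : ℕ) - k) * algebraMap R F π ^ (k + 1) := by
                      rw [← pow_add]
                      congr 1
                      omega
                    rw [h3]
                    ring
                  rw [h2]
                  exact 𝒪.mul_mem (𝒪.pow_mem hπO _)
                    (rep2 (algebraMap R F π ^ (k + 1) * m') (Or.inr ⟨m', hm', rfl⟩))
            have hmem : h j ∈ Jset π G d x ((j : ℕ) + 1) := by
              simp only [h]
              split_ifs with hj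
              · exact Or.inr ⟨_, hxsmem, rfl⟩
              · exact Or.inl ⟨i, rfl⟩
            exact mkU (hgj j) (hh j) (hcl _ (hg j)) (rep j _ hmem))
        have h2 : xs ^ (D + r * (d - 1)) *
            (∏ j ∈ Finset.range k, algebraMap R F π ^ (j + 1)) *
            (dF i / xs ^ (d - 1)) ^ (r - k) = xs ^ D * ∏ j : Fin r, h j := by
          rw [← Finset.prod_range (fun j => h j), ← Finset.prod_range_mul_prod_Ico h hkr.le]
          have h3 : ∏ j ∈ Finset.range k, h j =
              (∏ j ∈ Finset.range k, algebraMap R F π ^ (j + 1)) * (xs ^ (d - 1)) ^ k := by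
            rw [← Finset.prod_congr rfl (fun j hj => (if_pos (Finset.mem_range.1 hj)).symm :
              ∀ j ∈ Finset.range k, algebraMap R F π ^ (j + 1) * xs ^ (d - 1) = h j),
              Finset.prod_mul_distrib, Finset.prod_const, Finset.card_range]
          have h4 : ∏ j ∈ Finset.Ico k r, h j = dF i ^ (r - k) := by
            rw [← Finset.prod_congr rfl (fun j hj =>
              (if_neg (not_lt.2 (Finset.mem_Ico.1 hj).1)).symm :
              ∀ j ∈ Finset.Ico k r, dF i = h j), Finset.prod_const, Nat.card_Ico]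
          rw [h3, h4, div_pow]
          have h5 : xs ^ (D + r * (d - 1)) = xs ^ D * ((xs ^ (d - 1)) ^ k *
              (xs ^ (d - 1)) ^ (r - k)) := by
            rw [← pow_add, ← pow_mul, ← pow_add]
            congr 1
            rw [Nat.add_sub_cancel' hkr.le, mul_comm]
          rw [h5]
          have h6 : (xs ^ (d - 1)) ^ (r - k) ≠ 0 := pow_ne_zero _ hxd
          field_simp
        change U 𝒪 (f / (xs ^ (D + r * (d - 1)) *
            (∏ j ∈ Finset.range k, algebraMap R F π ^ (j + 1)) *
            (dF i / xs ^ (d - 1)) ^ (r - k)))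
        rw [h2]
        exact h1

end Pool.Agent.Q229.OD.S7
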